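import Pool.Agent.H987.Y.StA

/-! Task Y-K8: the tree is a local cover of the network. -/

set_option autoImplicit false
set_option linter.unusedSectionVars false
set_option linter.unusedSimpArgs false

open scoped BigOperators InnerProductSpace Topology
open Filter MeasureTheory

namespace Pool.Agent.H757.Y987

open Pool.Agent.H987.Y
open Pool.Agent.Y662.TR (LL Cf Mw dv hu clp dv_apply)
open Pool.Agent.TH369.AN (Rz)
open Pool.Agent.H987.Z (Rs Gr Fr gZ HV)

variable {d n N R : ℕ}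

/-! ### good vertices -/

theorem gL_mono {r r' : ℕ} (h : r ≤ r') {l : List (Ix (Lt d) n)} (hl : gL R r l) : gL R r' l := by
  refine ⟨hl.1, hl.2.1.trans h, fun p hp i => (hl.2.2 p hp i).trans ?_⟩
  exact_mod_cast Nat.mul_le_mul_right R h

theorem gV_mono {r r' : ℕ} (h : r ≤ r') {v : Vt (Lt d) n} (hv : gV R r v) : gV R r' v := by
  refine ⟨gL_mono h hv.1, fun i => (hv.2 i).trans ?_⟩
  exact_mod_cast Nat.mul_le_mul_right R h

theorem gV_root (r : ℕ) : gV R r (([], 0) : Vt (Lt d) n) := by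
  refine ⟨⟨trivial, Nat.zero_le _, fun p hp => absurd hp (by simp)⟩, fun i => ?_⟩
  simp only [Pi.zero_apply, abs_zero]
  positivity

/-- the offsets -/
noncomputable def Fb (d R : ℕ) : Finset (Lt d) := Fintype.piFinset fun _ => Finset.Icc (-(R : ℤ)) R

theorem mem_Fb (e : Lt d) : e ∈ Fb d R ↔ ∀ i, |e i| ≤ (R : ℤ) := by
  unfold Fb
  rw [Fintype.mem_piFinset]
  refine forall_congr' fun i => ?_
  rw [Finset.mem_Icc, abs_le]

theorem gV_sheet {r : ℕ} {l : List (Ix (Lt d) n)} {x : Lt d} (h : gV R r (l, x)) {e : Lt d}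
    (he : e ∈ Fb d R) : gV R (r + 1) (l, x + e) := by
  refine ⟨gL_mono (Nat.le_succ r) h.1, fun i => ?_⟩
  have h1 : |x i| ≤ ((r * R : ℕ) : ℤ) := h.2 i
  have h2 := (mem_Fb e).1 he i
  calc |(x + e) i| ≤ |x i| + |e i| := abs_add_le _ _
    _ ≤ ((r * R : ℕ) : ℤ) + R := add_le_add h1 h2
    _ = (((r + 1) * R : ℕ) : ℤ) := by push_cast; ring

/-- the child of `v` with the label `j` -/
def ch (j : Fin (n + 1)) (v : Vt (Lt d) n) : Vt (Lt d) n := ((v.2, j) :: v.1, 0)

theorem gV_child {r : ℕ} {v : Vt (Lt d) n} (h : gV R r v) {j : Fin (n + 1)}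
    (hj : al true (0 : Lt d) v j) : gV R (r + 1) (ch j v) := by
  obtain ⟨l, x⟩ := v
  refine ⟨⟨⟨fun hl hx hj0 => ?_, h.1.1⟩, ?_, ?_⟩, fun i => ?_⟩
  · exact hj ⟨fun _ => hl, hx, hj0⟩
  · have h3 : l.length ≤ r := h.1.2.1
    change l.length + 1 ≤ r + 1
    omega
  · intro p hp i
    rcases List.mem_cons.1 hp with rfl | hp
    · exact (gV_mono (Nat.le_succ r) h).2 i
    · exact (gV_mono (Nat.le_succ r) h).1.2.2 p hp i
  · simp only [ch, Pi.zero_apply, abs_zero]
    positivity

theorem gV_parent {r : ℕ} {l : List (Ix (Lt d) n)} {u x : Lt d} {j : Fin (n + 1)}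
    (h : gV R r ((u, j) :: l, x)) : gV R r (l, u) := by
  refine ⟨⟨h.1.1.2, ?_, fun p hp => h.1.2.2 p (List.mem_cons_of_mem _ hp)⟩,
    fun i => h.1.2.2 (u, j) List.mem_cons_self i⟩
  have := h.1.2.1
  simp only [List.length_cons] at this
  change l.length ≤ r
  omega

/-! ### formal operators -/

section formal

variable (t : Lt d → Lt d → ℝ) (a : ℝ) (R)

/-- the formal operator on the lattice -/
noncomputable def hG (σ : Fin (n + 1) → Lt d → Lt d) (V' : Lt d → ℝ) (f : Lt d → ℂ) (x : Lt d) :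
    ℂ :=
  (∑ e ∈ Fb d R, ((t x (x + e) : ℝ) : ℂ) * f (x + e)) + (a : ℂ) * (∑ j, f (σ j x)) +
    ((clp 1 (V' x) : ℝ) : ℂ) * f x

open Classical in
/-- the bond to a child -/
noncomputable def tf (v : Vt (Lt d) n) (j : Fin (n + 1)) : ℝ := if al true (0 : Lt d) v j then 1 else 0

open Classical in
/-- the term of the parent -/
noncomputable def PT (f : Vt (Lt d) n → ℂ) : Vt (Lt d) n → ℂ
  | ([], _) => 0
  | ((u, j) :: l, x) => if x = 0 then ((tf (l, u) j : ℝ) : ℂ) * f (l, u) else 0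

/-- the formal operator on the tree -/
noncomputable def hT (W : List (Ix (Lt d) n) → Om d N) (f : Vt (Lt d) n → ℂ) (v : Vt (Lt d) n) :
    ℂ :=
  (∑ e ∈ Fb d R, ((t (v.2 + ph (W v.1).1) (v.2 + e + ph (W v.1).1) : ℝ) : ℂ) * f (v.1, v.2 + e)) +
    (a : ℂ) * ((∑ j, ((tf v j : ℝ) : ℂ) * f (ch j v)) + PT f v) +
    ((clp 1 ((W v.1).2 v.2) : ℝ) : ℂ) * f v

variable {t a R}

theorem hT_local (W : List (Ix (Lt d) n) → Om d N) {f f' : Vt (Lt d) n → ℂ} {m : ℕ}
    (h : ∀ w, gV R (m + 1) w → f w = f' w) {v : Vt (Lt d) n} (hv : gV R m v) :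
    hT R t a W f v = hT R t a W f' v := by
  have h1 : ∀ e ∈ Fb d R, ((t (v.2 + ph (W v.1).1) (v.2 + e + ph (W v.1).1) : ℝ) : ℂ) *
      f (v.1, v.2 + e) = ((t (v.2 + ph (W v.1).1) (v.2 + e + ph (W v.1).1) : ℝ) : ℂ) *
      f' (v.1, v.2 + e) := by
    intro e he
    rw [h _ (gV_sheet hv he)]
  have h2 : ∀ j, ((tf v j : ℝ) : ℂ) * f (ch j v) = ((tf v j : ℝ) : ℂ) * f' (ch j v) := by
    intro j
    by_cases hb : al true (0 : Lt d) v j
    · rw [h _ (gV_child hv hb)]
    · have : tf v j = 0 := if_neg hb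
      simp [this]
  have h3 : PT f v = PT f' v := by
    obtain ⟨l, x⟩ := v
    cases l with
    | nil => rfl
    | cons p l =>
      obtain ⟨u, j⟩ := p
      simp only [PT]
      rw [h _ (gV_mono (Nat.le_succ m) (gV_parent hv))]
  unfold hT
  rw [Finset.sum_congr rfl h1, Finset.sum_congr rfl fun j _ => h2 j, h3,
    h v (gV_mono (Nat.le_succ m) hv)]

theorem hT_iter (W : List (Ix (Lt d) n) → Om d N) (k : ℕ) :
    ∀ {f f' : Vt (Lt d) n → ℂ} {m : ℕ}, (∀ w, gV R (m + k) w → f w = f' w) →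
    ∀ {v : Vt (Lt d) n}, gV R m v → ((hT R t a W)^[k] f) v = ((hT R t a W)^[k] f') v := by
  induction k with
  | zero =>
    intro f f' m h v hv
    exact h v hv
  | succ k ih =>
    intro f f' m h v hv
    rw [Function.iterate_succ_apply', Function.iterate_succ_apply']
    refine hT_local W (m := m) (fun w hw => ?_) hv
    exact ih (m := m + 1) (fun w' hw' => h w' (by rwa [Nat.add_right_comm] at hw')) hw

theorem tf_one {v : Vt (Lt d) n} {j : Fin (n + 1)} (h : al true (0 : Lt d) v j) : tf v j = 1 :=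
  if_pos h

theorem tf_zero {v : Vt (Lt d) n} {j : Fin (n + 1)} (h : ¬ al true (0 : Lt d) v j) : tf v j = 0 :=
  if_neg h

/-- the intertwining relation at a good vertex -/
theorem inter {h : ℝ} (ht : Net N R h t) {σ : Fin (n + 1) → Lt d → Lt d}
    (hs : ∀ j x, σ j (σ j x) = x) {m : ℕ} (X : Lt d) (W : List (Ix (Lt d) n) → Om d N)
    (V' : Lt d → ℝ) (f : Lt d → ℂ) {v : Vt (Lt d) n} (hv : gV R m v)
    (hb : ∃ w : Lt d, bs σ X v.1 = ph (W v.1).1 + (N : ℤ) • w)
    (hW : (W v.1).2 v.2 = V' (pos σ X v)) :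
    hT R t a W (fun w => f (pos σ X w)) v = hG R t a σ V' f (pos σ X v) := by
  unfold hT hG
  rw [hW]
  obtain ⟨w, hw⟩ := hb
  have e0 : ∀ e : Lt d, t (v.2 + ph (W v.1).1) (v.2 + e + ph (W v.1).1) =
      t (pos σ X v) (pos σ X v + e) := by
    intro e
    rw [← ht.per (v.2 + ph (W v.1).1) (v.2 + e + ph (W v.1).1) w]
    unfold pos
    rw [hw]
    congr 1
    · abel
    · abel
  have e1 : ∀ e : Lt d, pos σ X (v.1, v.2 + e) = pos σ X v + e := fun e => by
    unfold pos; simp only [add_assoc]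
  simp only [e0, e1]
  congr 2
  congr 1
  have e2 : ∀ j, pos σ X (ch j v) = σ (lab (col v.1) v.2 j) (pos σ X v) := by
    intro j
    obtain ⟨l, x⟩ := v
    unfold pos ch
    simp only [bs, add_zero]
  simp only [e2]
  obtain ⟨l, x⟩ := v
  simp only
  by_cases hx : x = 0
  · subst hx
    cases l with
    | nil =>
      have h1 : ∀ j, tf (([], 0) : Vt (Lt d) n) j = 1 := fun j =>
        tf_one fun h => h.1 rfl rfl
      simp only [h1, PT, add_zero, lab, col, Equiv.swap_self, Equiv.refl_apply, if_true,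
        Complex.ofReal_one, one_mul]
    | cons p l =>
      obtain ⟨u, j0⟩ := p
      set c := col (((u, j0) :: l) : List (Ix (Lt d) n)) with hc
      have hc' : c = lab (col l) u j0 := rfl
      set Y := pos σ X (((u, j0) :: l, 0) : Vt (Lt d) n) with hY
      have hlab : ∀ j, lab c (0 : Lt d) j = Equiv.swap 0 c j := fun j => by
        unfold lab; rw [if_pos rfl]
      simp only [hlab]
      have ht : ∀ j, ((tf (((u, j0) :: l, 0) : Vt (Lt d) n) j : ℝ) : ℂ) *
          f (σ (Equiv.swap 0 c j) Y) = if j = 0 then 0 else f (σ (Equiv.swap 0 c j) Y) := by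
        intro j
        by_cases hj : j = 0
        · rw [if_pos hj, tf_zero (by
            intro h
            exact h ⟨fun _ => by simp, rfl, hj⟩)]
          simp
        · rw [if_neg hj, tf_one (by
            intro h
            exact hj h.2.2)]
          simp
      simp only [ht]
      have hpar : PT (fun w => f (pos σ X w)) (((u, j0) :: l, 0) : Vt (Lt d) n) =
          f (σ (Equiv.swap 0 c 0) Y) := by
        simp only [PT, if_true]
        have h1 : tf ((l, u) : Vt (Lt d) n) j0 = 1 := by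
          refine tf_one ?_
          rintro ⟨h2, h3, h4⟩
          exact (hv.1.1.1 (h2 rfl) h3) h4
        rw [h1, Complex.ofReal_one, one_mul]
        congr 1
        rw [Equiv.swap_apply_left, hc', hY]
        unfold pos
        simp only [bs, add_zero]
        rw [hs]
      rw [hpar]
      have hsum : (∑ j, if j = 0 then (0 : ℂ) else f (σ (Equiv.swap 0 c j) Y)) +
          f (σ (Equiv.swap 0 c 0) Y) = ∑ j, f (σ (Equiv.swap 0 c j) Y) := by
        rw [Fin.sum_univ_succ, Fin.sum_univ_succ]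
        simp only [if_true, Fin.succ_ne_zero, if_false]
        ring
      rw [hsum]
      exact Equiv.sum_comp (Equiv.swap 0 c) fun j => f (σ j Y)
  · have ht : ∀ j, tf ((l, x) : Vt (Lt d) n) j = 1 := fun j =>
      tf_one fun h => hx h.2.1
    have hlab : ∀ j, lab (col l) x j = j := fun j => by unfold lab; rw [if_neg hx]
    have hpar : PT (fun w => f (pos σ X w)) ((l, x) : Vt (Lt d) n) = 0 := by
      cases l with
      | nil => rfl
      | cons p l => obtain ⟨u, j⟩ := p; simp only [PT]; rw [if_neg hx]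
    simp only [ht, hpar, add_zero, hlab, Complex.ofReal_one, one_mul]

theorem inter_iter {h : ℝ} (ht : Net N R h t) {σ : Fin (n + 1) → Lt d → Lt d}
    (hs : ∀ j x, σ j (σ j x) = x) {t0 : ℕ} (X : Lt d) (W : List (Ix (Lt d) n) → Om d N)
    (V' : Lt d → ℝ) (hb : ∀ l, gL R t0 l → ∃ w : Lt d, bs σ X l = ph (W l).1 + (N : ℤ) • w)
    (hW : ∀ v, gV R t0 v → (W v.1).2 v.2 = V' (pos σ X v)) (f : Lt d → ℂ) (k : ℕ) :
    ∀ {m : ℕ}, m + k ≤ t0 → ∀ {v : Vt (Lt d) n}, gV R m v →
    ((hT R t a W)^[k] fun w => f (pos σ X w)) v = ((hG R t a σ V')^[k] f) (pos σ X v) := by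
  induction k with
  | zero =>
    intro m hm v hv
    rfl
  | succ k ih =>
    intro m hm v hv
    rw [Function.iterate_succ_apply', Function.iterate_succ_apply']
    have hv0 : gV R t0 v := gV_mono (by omega) hv
    rw [← inter ht hs X W V' ((hG R t a σ V')^[k] f) hv (hb v.1 hv0.1) (hW v hv0)]
    exact hT_local W (fun w hw => ih (m := m + 1) (by omega) hw) hv

end formal

/-! ### the kernels -/

theorem sum_dg {x : Lt d} {V' : Lt d → ℝ} (u : Lt d → ℂ) :
    HasSum (fun y => ((dg V' x y : ℝ) : ℂ) * u y) (((clp 1 (V' x) : ℝ) : ℂ) * u x) := by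
  have h := hasSum_single (f := fun y => ((dg V' x y : ℝ) : ℂ) * u y) x (by
    intro y hy
    unfold dg
    rw [if_neg (Ne.symm hy)]
    simp)
  have h2 : dg V' x x = clp 1 (V' x) := by unfold dg; rw [if_pos rfl]
  simpa [h2] using h

theorem sum_t {h : ℝ} {t : Lt d → Lt d → ℝ} (ht : Net N R h t) (x : Lt d) (u : Lt d → ℂ) :
    HasSum (fun y => ((t x y : ℝ) : ℂ) * u y)
      (∑ e ∈ Fb d R, ((t x (x + e) : ℝ) : ℂ) * u (x + e)) := by
  have h1 : HasSum (fun y => ((t x y : ℝ) : ℂ) * u y)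
      (∑ y ∈ (Fb d R).map (addLeftEmbedding x), ((t x y : ℝ) : ℂ) * u y) :=
    hasSum_sum_of_ne_finset_zero (by
      intro y hy
      have : t x y = 0 := by
        by_contra hne
        apply hy
        rw [Finset.mem_map]
        refine ⟨y - x, ?_, by simp⟩
        rw [mem_Fb]
        intro i
        have := ht.rng x y hne i
        rw [Pi.sub_apply, abs_sub_comm]
        exact this
      simp [this])
  rw [Finset.sum_map] at h1
  exact h1

theorem sum_ks (σ : Fin (n + 1) → Lt d → Lt d) (x : Lt d) (u : Lt d → ℂ) :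
    HasSum (fun y => ((kσ σ x y : ℝ) : ℂ) * u y) (∑ j, u (σ j x)) := by
  classical
  have h1 : ∀ y, ((kσ σ x y : ℝ) : ℂ) * u y = ∑ j : Fin (n + 1), if y = σ j x then u y else 0 := by
    intro y
    unfold kσ
    push_cast
    rw [Finset.sum_mul]
    refine Finset.sum_congr rfl fun j _ => ?_
    split_ifs <;> simp
  simp only [h1]
  refine hasSum_sum fun j _ => ?_
  have h2 := hasSum_single (f := fun y => if y = σ j x then u y else 0) (σ j x) (by
    intro y hy
    exact if_neg hy)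
  simpa using h2

theorem ker_ks {σ : Fin (n + 1) → Lt d → Lt d} (hs : ∀ j x, σ j (σ j x) = x) {h a : ℝ}
    {t : Lt d → Lt d → ℝ} (ht : Ker h t) :
    Ker (h + |a| * (n + 1)) (fun x y => t x y + a * kσ σ x y) := by
  classical
  have hk : ∀ x, HasSum (fun y => kσ σ x y) ((n : ℝ) + 1) := by
    intro x
    have h1 : HasSum (fun y => ∑ j : Fin (n + 1), if y = σ j x then (1 : ℝ) else 0)
        (∑ _j : Fin (n + 1), (1 : ℝ)) := by
      refine hasSum_sum fun j _ => ?_
      exact hasSum_ite_eq (σ j x) 1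
    simpa [kσ] using h1
  have hk0 : ∀ x y, 0 ≤ kσ σ x y := by
    intro x y
    unfold kσ
    exact Finset.sum_nonneg fun j _ => by split_ifs <;> norm_num
  have hab : ∀ x y, |t x y + a * kσ σ x y| ≤ |t x y| + |a| * kσ σ x y := by
    intro x y
    refine (abs_add_le _ _).trans ?_
    rw [abs_mul, abs_of_nonneg (hk0 x y)]
  have hsm : ∀ x, Summable fun y => |t x y| + |a| * kσ σ x y := fun x =>
    (ht.sm x).add ((hk x).summable.mul_left _)
  have hsm' : ∀ x, Summable fun y => |t x y + a * kσ σ x y| := fun x =>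
    Summable.of_nonneg_of_le (fun y => abs_nonneg _) (hab x) (hsm x)
  refine ⟨?_, ?_, hsm', ?_⟩
  · have := ht.h0
    positivity
  · intro x y
    rw [ht.sy x y]
    congr 2
    unfold kσ
    refine Finset.sum_congr rfl fun j _ => ?_
    congr 1
    exact propext ⟨fun h => by rw [h, hs], fun h => by rw [h, hs]⟩
  · intro x
    refine ((hsm' x).tsum_le_tsum (hab x) (hsm x)).trans ?_
    rw [(ht.sm x).tsum_add ((hk x).summable.mul_left _), tsum_mul_left, (hk x).tsum_eq]
    have := ht.le x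
    linarith

theorem hG_eq (h1 : S_op) {h a : ℝ} {t : Lt d → Lt d → ℝ} (ht : Net N R h t)
    {σ : Fin (n + 1) → Lt d → Lt d} (hs : ∀ j x, σ j (σ j x) = x) (V' : Lt d → ℝ)
    (u : LL (Lt d)) (x : Lt d) :
    Op (fun x y => t x y + a * kσ σ x y + dg V' x y) u x = hG R t a σ V' (fun w => u w) x := by
  have hK := ((h1 (Lt d) _ _ (ker_ks (a := a) hs ht.ker)).2.2.2.1 V').1
  have h2 := ((h1 (Lt d) _ _ hK).1 u x).2
  rw [h2]
  unfold hG
  have h3 := ((sum_t ht x (fun w => u w)).add ((sum_ks σ x (fun w => u w)).mul_left (a : ℂ))).add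
    (sum_dg (V' := V') (x := x) (fun w => u w))
  rw [← h3.tsum_eq]
  refine tsum_congr fun y => ?_
  push_cast
  ring

theorem sum_sheet {h : ℝ} {t : Lt d → Lt d → ℝ} (ht : Net N R h t)
    (W : List (Ix (Lt d) n) → Om d N) (v : Vt (Lt d) n) (u : Vt (Lt d) n → ℂ) :
    HasSum (fun w : Vt (Lt d) n => (((if v.1 = w.1 then kN t (W v.1) v.2 w.2 else 0 : ℝ)) : ℂ) * u w)
      ((∑ e ∈ Fb d R, ((t (v.2 + ph (W v.1).1) (v.2 + e + ph (W v.1).1) : ℝ) : ℂ) *
        u (v.1, v.2 + e)) + ((clp 1 ((W v.1).2 v.2) : ℝ) : ℂ) * u v) := by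
  classical
  set p := ph (W v.1).1 with hp
  have h1 : HasSum (fun x' : Lt d => ((t (v.2 + p) (x' + p) : ℝ) : ℂ) * u (v.1, x'))
      (∑ e ∈ Fb d R, ((t (v.2 + p) (v.2 + e + p) : ℝ) : ℂ) * u (v.1, v.2 + e)) := by
    have h2 : HasSum (fun x' : Lt d => ((t (v.2 + p) (x' + p) : ℝ) : ℂ) * u (v.1, x'))
        (∑ x' ∈ (Fb d R).map (addLeftEmbedding v.2),
          ((t (v.2 + p) (x' + p) : ℝ) : ℂ) * u (v.1, x')) :=
      hasSum_sum_of_ne_finset_zero (by
        intro y hy
        have : t (v.2 + p) (y + p) = 0 := by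
          by_contra hne
          apply hy
          rw [Finset.mem_map]
          refine ⟨y - v.2, ?_, by simp⟩
          rw [mem_Fb]
          intro i
          have := ht.rng _ _ hne i
          rw [Pi.sub_apply, abs_sub_comm]
          simp only [Pi.add_apply] at this
          have e : v.2 i + p i - (y i + p i) = v.2 i - y i := by ring
          rwa [e] at this
        simp [this])
    rw [Finset.sum_map] at h2
    exact h2
  have h2 : HasSum (fun x' : Lt d => ((dg (W v.1).2 v.2 x' : ℝ) : ℂ) * u (v.1, x'))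
      (((clp 1 ((W v.1).2 v.2) : ℝ) : ℂ) * u v) := sum_dg (x := v.2) (fun x' => u (v.1, x'))
  have h3 := h1.add h2
  have hinj : Function.Injective fun x' : Lt d => ((v.1, x') : Vt (Lt d) n) := by
    intro x y hxy
    exact (Prod.ext_iff.1 hxy).2
  refine (hinj.hasSum_iff ?_).1 ?_
  · intro w hw
    rw [if_neg]
    · simp
    · intro h
      exact hw ⟨w.2, Prod.ext h rfl⟩
  · refine h3.congr_fun ?_
    intro x'
    simp only [Function.comp_apply, if_true]
    unfold kN
    push_cast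
    ring

open Classical in
theorem bnd_eq (v w : Vt (Lt d) n) : bnd true (0 : Lt d) v w =
    ∑ j : Fin (n + 1), if w = ch j v then tf v j else 0 := by
  unfold bnd
  by_cases h : w.2 = 0 ∧ ∃ j, w.1 = (v.2, j) :: v.1 ∧ al true (0 : Lt d) v j
  · rw [if_pos h]
    obtain ⟨h1, j, h2, h3⟩ := h
    have hw : w = ch j v := Prod.ext h2 h1
    rw [Finset.sum_eq_single j]
    · rw [if_pos hw, tf_one h3]
    · intro i _ hi
      rw [if_neg]
      intro h4
      rw [hw] at h4
      unfold ch at h4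
      simp only [Prod.mk.injEq, List.cons.injEq, and_true, true_and] at h4
      exact hi h4.symm
    · intro h4
      exact absurd (Finset.mem_univ _) h4
  · rw [if_neg h]
    symm
    refine Finset.sum_eq_zero fun j _ => ?_
    split_ifs with h1
    · refine tf_zero fun h3 => h ⟨?_, j, ?_, h3⟩
      · rw [h1]; rfl
      · rw [h1]; rfl
    · rfl

theorem sum_child (v : Vt (Lt d) n) (u : Vt (Lt d) n → ℂ) :
    HasSum (fun w : Vt (Lt d) n => ((bnd true (0 : Lt d) v w : ℝ) : ℂ) * u w)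
      (∑ j, ((tf v j : ℝ) : ℂ) * u (ch j v)) := by
  classical
  have h1 : ∀ w : Vt (Lt d) n, ((bnd true (0 : Lt d) v w : ℝ) : ℂ) * u w =
      ∑ j : Fin (n + 1), if w = ch j v then ((tf v j : ℝ) : ℂ) * u w else 0 := by
    intro w
    rw [bnd_eq]
    push_cast
    rw [Finset.sum_mul]
    refine Finset.sum_congr rfl fun j _ => ?_
    split_ifs <;> simp
  simp only [h1]
  refine hasSum_sum fun j _ => ?_
  have h2 := hasSum_single (f := fun w => if w = ch j v then ((tf v j : ℝ) : ℂ) * u w else 0)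
    (ch j v) (by
    intro y hy
    exact if_neg hy)
  simpa using h2

theorem sum_parent (v : Vt (Lt d) n) (u : Vt (Lt d) n → ℂ) :
    HasSum (fun w : Vt (Lt d) n => ((bnd true (0 : Lt d) w v : ℝ) : ℂ) * u w) (PT u v) := by
  classical
  obtain ⟨l, x⟩ := v
  cases l with
  | nil =>
    have h1 : ∀ w : Vt (Lt d) n, bnd true (0 : Lt d) w (([], x) : Vt (Lt d) n) = 0 := by
      intro w
      unfold bnd
      rw [if_neg]
      rintro ⟨_, j, h2, _⟩
      simp at h2
    simp only [h1, PT]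
    simp
  | cons p l =>
    obtain ⟨y, j0⟩ := p
    have h1 : ∀ w : Vt (Lt d) n, w ≠ (l, y) → bnd true (0 : Lt d) w
        (((y, j0) :: l, x) : Vt (Lt d) n) = 0 := by
      intro w hw
      unfold bnd
      rw [if_neg]
      rintro ⟨_, j, h2, _⟩
      simp only [List.cons.injEq, Prod.mk.injEq] at h2
      exact hw (Prod.ext h2.2.symm h2.1.1.symm)
    have h2 := hasSum_single (f := fun w : Vt (Lt d) n => ((bnd true (0 : Lt d) w
      (((y, j0) :: l, x) : Vt (Lt d) n) : ℝ) : ℂ) * u w) (l, y) (by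
        intro w hw
        rw [h1 w hw]
        simp)
    have h3 : ((bnd true (0 : Lt d) ((l, y) : Vt (Lt d) n)
      (((y, j0) :: l, x) : Vt (Lt d) n) : ℝ) : ℂ) * u (l, y) = PT u ((y, j0) :: l, x) := by
      simp only [PT]
      unfold bnd
      by_cases hx : x = 0
      · rw [if_pos hx]
        congr 2
        by_cases ha : al true (0 : Lt d) ((l, y) : Vt (Lt d) n) j0
        · rw [tf_one ha, if_pos ⟨hx, j0, rfl, ha⟩]
        · rw [tf_zero ha, if_neg]
          rintro ⟨_, j, h4, h5⟩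
          simp only [List.cons.injEq, Prod.mk.injEq, true_and, and_true] at h4
          rw [← h4] at h5
          exact ha h5
      · rw [if_neg hx, if_neg (fun h => hx h.1)]
        simp
    rw [h3] at h2
    exact h2

theorem ker_kN (h1 : S_op) {h : ℝ} {t : Lt d → Lt d → ℝ} (ht : Ker h t) (ω : Om d N) :
    Ker (h + 1) (kN t ω) := by
  set p := ph ω.1 with hp
  have hK : Ker h (fun x y => t (x + p) (y + p)) := by
    refine ⟨ht.h0, fun x y => ht.sy _ _, fun x => ?_, fun x => ?_⟩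
    · exact (Equiv.summable_iff (Equiv.addRight p)).2 (ht.sm (x + p))
    · have h2 := (Equiv.addRight p).tsum_eq fun y => |t (x + p) y|
      exact h2.le.trans (ht.le (x + p))
  exact ((h1 (Lt d) _ _ hK).2.2.2.1 ω.2).1

theorem hT_eq (h1 : S_op) (h2 : S_troot) {h a : ℝ} {t : Lt d → Lt d → ℝ} (ht : Net N R h t)
    (W : List (Ix (Lt d) n) → Om d N) (u : LL (Vt (Lt d) n)) (v : Vt (Lt d) n) :
    Op (kB (kN t) true (0 : Lt d) a W) u v = hT R t a W (fun w => u w) v := by
  classical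
  have hK := (h2 (Lt d) (Om d N) n (kN t) (h + 1) (ker_kN h1 ht.ker) true (0 : Lt d) a W).1
  have h3 := ((h1 (Vt (Lt d) n) _ _ hK).1 u v).2
  rw [h3]
  unfold hT
  have h4 := (sum_sheet ht W v (fun w => u w)).add
    (((sum_child v (fun w => u w)).add (sum_parent v (fun w => u w))).mul_left (a : ℂ))
  have e : (∑ e ∈ Fb d R, ((t (v.2 + ph (W v.1).1) (v.2 + e + ph (W v.1).1) : ℝ) : ℂ) *
        u (v.1, v.2 + e)) + (a : ℂ) * ((∑ j, ((tf v j : ℝ) : ℂ) * u (ch j v)) +
          PT (fun w => u w) v) + ((clp 1 ((W v.1).2 v.2) : ℝ) : ℂ) * u v =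
      ((∑ e ∈ Fb d R, ((t (v.2 + ph (W v.1).1) (v.2 + e + ph (W v.1).1) : ℝ) : ℂ) *
        u (v.1, v.2 + e)) + ((clp 1 ((W v.1).2 v.2) : ℝ) : ℂ) * u v) +
      (a : ℂ) * ((∑ j, ((tf v j : ℝ) : ℂ) * u (ch j v)) + PT (fun w => u w) v) := by ring
  rw [e, ← h4.tsum_eq]
  refine tsum_congr fun w => ?_
  unfold kB
  push_cast
  ring_nf

theorem pow_eq {ι : Type} (T : LL ι →L[ℂ] LL ι) (h : (ι → ℂ) → ι → ℂ)
    (hT : ∀ (u : LL ι) (x : ι), T u x = h (fun w => u w) x) (k : ℕ) (u : LL ι) :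
    (fun x => (T ^ k) u x) = h^[k] (fun w => u w) := by
  induction k with
  | zero => rfl
  | succ k ih =>
    rw [Function.iterate_succ_apply', ← ih]
    funext x
    rw [pow_succ']
    exact hT _ x

/-- **K8** -/
theorem cov (h1 : S_op) (h2 : S_troot) : Pool.Agent.H987.Y.S_cov := by
  intro d N R n t0 t h a σ X W V' ht hs hinj hb hW m hm
  classical
  have e1 := congrFun (pow_eq (Op fun x y => t x y + a * kσ σ x y + dg V' x y)
    (hG R t a σ V') (hG_eq h1 ht hs V') m (dv X)) X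
  have e2 := congrFun (pow_eq (Op (kB (kN t) true (0 : Lt d) a W)) (hT R t a W)
    (hT_eq h1 h2 ht W) m (dv (([] : List (Ix (Lt d) n)), 0))) ([], 0)
  simp only at e1 e2
  rw [e1, e2]
  have h3 : pos σ X (([], 0) : Vt (Lt d) n) = X := by simp [pos, bs]
  have e3 := inter_iter (a := a) ht hs X W V' hb hW (fun w => dv X w) m (m := 0)
    (by rw [Nat.zero_add]; exact hm) (gV_root (n := n) (R := R) (d := d) 0)
  rw [h3] at e3
  rw [← e3]
  refine hT_iter W m (m := 0) (fun w hw => ?_) (gV_root 0)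
  have hw' : gV R t0 w := gV_mono (by omega) hw
  rw [dv_apply, dv_apply]
  by_cases hwo : w = ([], 0)
  · rw [if_pos hwo, if_pos (by rw [hwo]; exact h3)]
  · rw [if_neg hwo, if_neg]
    intro h6
    exact hwo (hinj hw' (gV_root t0) (h6.trans h3.symm))

end Pool.Agent.H757.Y987
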